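import Pool.Agent.V1213.AM.Main

set_option autoImplicit false

/-!
# MP_cd509c_nt: the modulus of the Ramanujan Xi function on circles around the origin

`Ξ_Δ(z) = Λ(6 + i z)`, `Λ(s) = (2π)^(-s) Γ(s) L(s, Δ)`; it is conjectured that all zeros of `Ξ_Δ` are real.
We compare the values of `|Ξ_Δ|` at two points of a circle around the origin: if all zeros of `Ξ_Δ` satisfy
`|Im z| ≤ h`, `h ≤ 1/2` (this holds for `h = 1/2`), then `|Ξ_Δ|` is larger at the point which is farther from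
the real line as soon as one of the two points is at distance about `h` (or `h |z|`) from the real line; and all
zeros are real if and only if this holds for all pairs of points. For the zeros of `Ξ_Δ(z) + c Ξ_Δ(e^{iα} z)`,
`|c| = 1`, this shows that they all lie on the two lines through `0` on which `z` and `e^{iα} z` have the same
distance from the real line, unconditionally for `|cos α| < 7/8`; in general the exceptions are close to the real line and
at distance less than `1` from a circle through a non-real zero of `Ξ_Δ`; and all zeros of `Ξ_Δ` are real if and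
only if this holds for all `α`.

Proof: `Ξ_Δ(i z) = G(z ^ 2)`, `G` real, entire, of order less than one; `|G|` is compared on circles by means of
the real polynomials of the Hadamard product; the strip `|Im z| ≤ 1/2` comes from the mean square of the
coefficients (Rankin, Selberg), and there are no zeros in `|z| < 2` since `Λ(8) < 2 Λ(6)`.
-/

namespace Pool.Agent.Results.MP_cd509c_nt.CircularGrowth

open Complex

noncomputable section

/-- `Δ(i y) = e^(-2πy) ∏_{n ≥ 1} (1 - e^(-2πny))^24`, the modular discriminant on the imaginary axis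
(the function of the frozen statement S18517). -/
def delta (y : ℝ) : ℝ :=
  Real.exp (-2 * Real.pi * y) * ∏' n : ℕ, (1 - Real.exp (-2 * Real.pi * ((n : ℝ) + 1) * y)) ^ 24

/-- The completed L-function `Λ(s) = ∫_0^∞ Δ(i y) y^(s-1) dy = (2π)^(-s) Γ(s) L(s, Δ)`, an entire
function with `Λ(12 - s) = Λ(s)`. -/
def Lam (s : ℂ) : ℂ := mellin (fun y : ℝ => ((delta y : ℝ) : ℂ)) s

/-- The Ramanujan Xi function `Ξ_Δ(z) = Λ(6 + i z)`. -/
def Xi (z : ℂ) : ℂ := Lam (6 + Complex.I * z)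

/-- Q1 (the frozen statement S18517): every zero of the Ramanujan Xi function is real. -/
def AllZerosReal : Prop := ∀ z : ℂ, Xi z = 0 → z.im = 0

open Pool.Agent.V1213.AM

lemma Xi_XD (z : ℂ) : Xi z = XD (I * z) := rfl

lemma rot (z : ℂ) : I * (-I * z) = z := by
  have := Complex.I_mul_I
  linear_combination (-z) * this

lemma re_rot (z : ℂ) : (I * z).re = -z.im := by simp

lemma abs_rot (z : ℂ) : |(I * z).re| = |z.im| := by rw [re_rot, abs_neg]

lemma nrot (z : ℂ) : ‖I * z‖ = ‖z‖ := by rw [norm_mul, norm_I, one_mul]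

lemma swap (α : ℝ) (z : ℂ) : cexp (α * I) * (I * z) = I * (cexp (α * I) * z) := by ring

lemma zeros_iff (a : ℝ) : (∀ b : ℂ, Xi b = 0 → |b.im| ≤ a) ↔ ∀ b : ℂ, XD b = 0 → |b.re| ≤ a := by
  constructor
  · intro H b hb
    have h1 := H (-I * b) (by rw [Xi_XD, rot]; exact hb)
    rw [← abs_rot, rot] at h1
    exact h1
  · intro H b hb
    rw [← abs_rot]
    exact H _ hb

/-- **The modulus of the Ramanujan Xi function on circles around the origin.** -/
theorem result :
    -- two points of a circle, if all zeros satisfy `|Im z| ≤ h`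
    (∀ h : ℝ, 0 ≤ h → h ≤ 1 / 2 → (∀ b : ℂ, Xi b = 0 → |b.im| ≤ h) →
      ∀ z w : ℂ, ‖z‖ = ‖w‖ → |z.im| < |w.im| →
        min (h ^ 2 * ‖z‖ ^ 2 / 2) (15 * h ^ 2 / 7) < z.im ^ 2 + w.im ^ 2 → ‖Xi z‖ < ‖Xi w‖) ∧
    -- the unconditional case `h = 1 / 2`
    (∀ z w : ℂ, ‖z‖ = ‖w‖ → |z.im| < |w.im| → min (‖z‖ ^ 2 / 8) (15 / 28) < z.im ^ 2 + w.im ^ 2 →
      ‖Xi z‖ < ‖Xi w‖) ∧
    -- the local form: the circle of radius `‖z‖` is not close to a non-real zero
    (∀ z w : ℂ, ‖z‖ = ‖w‖ → |z.im| < |w.im| → (∀ b : ℂ, Xi b = 0 → b.im ≠ 0 → 1 ≤ |‖z‖ - ‖b‖|) →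
      ‖Xi z‖ < ‖Xi w‖) ∧
    -- the converse
    (∀ h : ℝ, 0 ≤ h → (∀ z w : ℂ, ‖z‖ = ‖w‖ → h ≤ |z.im| → |z.im| < |w.im| → ‖Xi z‖ < ‖Xi w‖) →
      ∀ b : ℂ, Xi b = 0 → |b.im| ≤ h) ∧
    (AllZerosReal ↔ ∀ z w : ℂ, ‖z‖ = ‖w‖ → |z.im| < |w.im| → ‖Xi z‖ < ‖Xi w‖) ∧
    -- combinations of `Ξ_Δ(z)` and `Ξ_Δ(e^{iα} z)`
    (∀ (α : ℝ) (c : ℂ), |Real.cos α| < 7 / 8 → ‖c‖ = 1 → ∀ z : ℂ, Xi z + c * Xi (cexp (α * I) * z) = 0 →
      |z.im| = |(cexp (α * I) * z).im|) ∧
    (∀ (α : ℝ) (c : ℂ), ‖c‖ = 1 → ∀ z : ℂ, Xi z + c * Xi (cexp (α * I) * z) = 0 →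
      |z.im| ≠ |(cexp (α * I) * z).im| →
        z.im ^ 2 + (cexp (α * I) * z).im ^ 2 ≤ min (‖z‖ ^ 2 / 8) (15 / 28) ∧
        ∃ b : ℂ, Xi b = 0 ∧ b.im ≠ 0 ∧ |‖z‖ - ‖b‖| < 1) ∧
    (AllZerosReal ↔ ∀ (α : ℝ) (c : ℂ), Real.sin α ≠ 0 → ‖c‖ = 1 →
      ∀ z : ℂ, Xi z + c * Xi (cexp (α * I) * z) = 0 → |z.im| = |(cexp (α * I) * z).im|) := by
  obtain ⟨F, K, a, hE, hd, ha, hS, hreal⟩ := data
  have hstrip : ∀ b : ℂ, XD b = 0 → |b.re| ≤ 1 / 2 := fun b hb => strip' hE hb
  have hz : ∀ h : ℝ, (∀ b : ℂ, XD b = 0 → |b.re| ≤ h) → ∀ b : ℂ, XD b = 0 → |b.re| ≤ h ∧ 2 ≤ ‖b‖ :=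
    fun h H b hb => ⟨H b hb, disc ha hS hb⟩
  have main : ∀ h : ℝ, 0 ≤ h → h ≤ 1 / 2 → (∀ b : ℂ, XD b = 0 → |b.re| ≤ h) →
      ∀ z w : ℂ, ‖z‖ = ‖w‖ → |z.im| < |w.im| →
        min (h ^ 2 * ‖z‖ ^ 2 / 2) (15 * h ^ 2 / 7) < z.im ^ 2 + w.im ^ 2 → ‖Xi z‖ < ‖Xi w‖ := by
    intro h h0 h1 H z w hn him hm
    refine circ_h hE hd h0 h1 (hz h H) (z := I * w) (z' := I * z) ?_ ?_ ?_
    · rw [nrot, nrot, hn]
    · rw [abs_rot, abs_rot]
      exact him
    · rw [nrot, re_rot, re_rot, neg_sq, neg_sq, ← hn, add_comm]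
      exact hm
  have hrh : AllZerosReal ↔ ∀ b : ℂ, XD b = 0 → |b.re| ≤ 0 := by
    rw [← zeros_iff]
    constructor
    · intro H b hb
      rw [H b hb, abs_zero]
    · intro H b hb
      exact abs_eq_zero.1 (le_antisymm (H b hb) (abs_nonneg _))
  have half : ∀ z w : ℂ, ‖z‖ = ‖w‖ → |z.im| < |w.im| → min (‖z‖ ^ 2 / 8) (15 / 28) < z.im ^ 2 + w.im ^ 2 →
      ‖Xi z‖ < ‖Xi w‖ := by
    intro z w hn him hm
    refine main (1 / 2) (by norm_num) le_rfl hstrip z w hn him ?_
    have e1 : (1 / 2 : ℝ) ^ 2 * ‖z‖ ^ 2 / 2 = ‖z‖ ^ 2 / 8 := by ring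
    have e2 : (15 : ℝ) * (1 / 2) ^ 2 / 7 = 15 / 28 := by norm_num
    rw [e1, e2]
    exact hm
  have loc : ∀ z w : ℂ, ‖z‖ = ‖w‖ → |z.im| < |w.im| →
      (∀ b : ℂ, Xi b = 0 → b.im ≠ 0 → 1 ≤ |‖z‖ - ‖b‖|) → ‖Xi z‖ < ‖Xi w‖ := by
    intro z w hn him hb
    refine circ_loc hE hd (hz _ hstrip) (z := I * w) (z' := I * z) ?_ ?_ ?_
    · rw [nrot, nrot, hn]
    · rw [abs_rot, abs_rot]
      exact him
    · intro b hb0 hbre
      have h1 := hb (-I * b) (by rw [Xi_XD, rot]; exact hb0) (by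
        intro h0
        have h2 := re_rot (-I * b)
        rw [rot, h0, neg_zero] at h2
        exact hbre h2)
      rw [← nrot (-I * b), rot] at h1
      rw [nrot, ← hn]
      exact h1
  have eqn : ∀ (α : ℝ) (c z : ℂ), ‖c‖ = 1 → Xi z + c * Xi (cexp (α * I) * z) = 0 →
      ‖Xi z‖ = ‖Xi (cexp (α * I) * z)‖ := by
    intro α c z hc h0
    rw [eq_neg_of_add_eq_zero_left h0, norm_neg, norm_mul, hc, one_mul]
  have conv : ∀ h : ℝ, 0 ≤ h → (∀ z w : ℂ, ‖z‖ = ‖w‖ → h ≤ |z.im| → |z.im| < |w.im| → ‖Xi z‖ < ‖Xi w‖) →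
      ∀ b : ℂ, XD b = 0 → |b.re| ≤ h := by
    intro h h0 H
    refine comp_conv h0 fun z z' hn h1 h2 => ?_
    have h3 := H (-I * z') (-I * z) (by
      rw [← nrot, rot, ← nrot (-I * z), rot, hn]) (by rw [← abs_rot, rot]; exact h1) (by
      rw [← abs_rot, rot, ← abs_rot, rot]; exact h2)
    rw [Xi_XD, Xi_XD, rot, rot] at h3
    exact h3
  refine ⟨fun h h0 h1 H => main h h0 h1 ((zeros_iff h).1 H), half, loc, fun h h0 H => ?_, ?_,
    fun α c hα hc z hz0 => ?_, fun α c hc z hz0 hne => ⟨?_, ?_⟩, ?_⟩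
  · exact (zeros_iff h).2 (conv h h0 H)
  · rw [hrh]
    constructor
    · intro H z w hn him
      refine main 0 le_rfl (by norm_num) H z w hn him ?_
      have h1 : 0 < |w.im| := lt_of_le_of_lt (abs_nonneg _) him
      have h2 : 0 < w.im ^ 2 := by rw [← sq_abs]; positivity
      refine (min_le_left _ _).trans_lt ?_
      have h3 := sq_nonneg z.im
      norm_num
      linarith
    · intro H
      exact conv 0 le_rfl fun z w hn _ him => H z w hn him
  · have h1 := rot_h hE hd (a := 1 / 2) (by norm_num) le_rfl (hz _ hstrip) (α := α) (c := c)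
      (by norm_num; linarith) hc (z := I * z) (by rw [swap]; exact hz0)
    rw [swap, abs_rot, abs_rot] at h1
    exact h1
  · by_contra hcon
    push Not at hcon
    have h1 := eqn α c z hc hz0
    have hn := norm_rot z α
    rcases lt_or_gt_of_ne hne with h2 | h2
    · have h3 := half z _ hn.symm h2 hcon
      linarith
    · have h3 := half _ z hn h2 (by rw [hn, add_comm]; exact hcon)
      linarith
  · by_contra hcon
    push Not at hcon
    have h1 := eqn α c z hc hz0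
    have hn := norm_rot z α
    rcases lt_or_gt_of_ne hne with h2 | h2
    · have h3 := loc z _ hn.symm h2 hcon
      linarith
    · have h3 := loc _ z hn h2 (by rw [hn]; exact hcon)
      linarith
  · rw [hrh]
    constructor
    · intro H α c hα hc z hz0
      have hcos : |Real.cos α| < 1 - (0 : ℝ) ^ 2 / 2 := by
        have h1 := Real.sin_sq_add_cos_sq α
        have h2 : 0 < Real.sin α ^ 2 := by positivity
        have h3 : |Real.cos α| ^ 2 < 1 := by rw [sq_abs]; linarith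
        have h4 := abs_nonneg (Real.cos α)
        norm_num
        nlinarith
      have h1 := rot_h hE hd (a := 0) le_rfl (by norm_num) (hz _ H) (α := α) (c := c) hcos hc (z := I * z)
        (by rw [swap]; exact hz0)
      rw [swap, abs_rot, abs_rot] at h1
      exact h1
    · intro H b hb
      have hcont : Continuous XD := hE.fdiff.continuous
      have h1 := rot_conv hcont hreal (fun α c hα hc z hz0 => by
        have h2 := H α c hα hc (-I * z) (by
          have e : I * (cexp (α * I) * (-I * z)) = cexp (α * I) * z := by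
            have := Complex.I_mul_I
            linear_combination (-(cexp (α * I) * z)) * this
          rw [Xi_XD, Xi_XD, rot, e]
          exact hz0)
        have e : I * (cexp (α * I) * (-I * z)) = cexp (α * I) * z := by
          have := Complex.I_mul_I
          linear_combination (-(cexp (α * I) * z)) * this
        rw [← abs_rot, rot, ← abs_rot, e] at h2
        exact h2) b hb
      rw [h1, abs_zero]

end

end Pool.Agent.Results.MP_cd509c_nt.CircularGrowth
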