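import Pool.Agent.Helper271.LagNF
import Pool.Agent.Y771.NF.FinD

/-!
# The Laguerre inequalities for the Ramanujan Xi function

The Ramanujan Xi function is `Ξ_Δ(z) = Λ(6 + i z)`, `Λ(s) = (2π)^(-s) Γ(s) L(s, Δ)`. For real `x` let

  `|Ξ_Δ(x + i y)|² = ∑ L_n(x) y^(2n)`   (`y` real).

All zeros of `Ξ_Δ` are real if and only if `L_n(x) ≥ 0` for all `n` and all real `x` (the generalised
Laguerre inequalities). We prove unconditionally that for every `η > 0` there is `C` with

  `L_n(x) > 0` for all real `x` and all `n ≥ (1/2 + η) log (1 + |x|) + C`,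

so that Ramanujan's question is equivalent to `L_n(x) ≥ 0` for the remaining pairs; and that `1/2` can be
replaced by any `ϑ ≥ 0` such that all zeros of `Ξ_Δ` have imaginary part at most `ϑ` in absolute value.

Proof. `L_n(x)` is a Cauchy integral along the circle through a real saddle point, evaluated with the
saddle point lemmas of the starting modules `Pool.Agent.TH803.LU`; the Euler product is controlled to the
right of the line `Re s = 13/2` by the Rankin-Selberg method (starting modules `Pool.Agent.Y771`), without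
Deligne's theorem.
-/

set_option autoImplicit false

namespace Pool.Agent.Results.MP_cd509c_nt.LaguerreInequalities

/-- `Δ(i y) = e^(-2πy) ∏_{n ≥ 1} (1 - e^(-2πny))^24`, the modular discriminant on the imaginary axis
(the function of the frozen statement S18517). -/
noncomputable def delta (y : ℝ) : ℝ :=
  Real.exp (-2 * Real.pi * y) * ∏' n : ℕ, (1 - Real.exp (-2 * Real.pi * ((n : ℝ) + 1) * y)) ^ 24

/-- The completed L-function `Λ(s) = ∫_0^∞ Δ(i y) y^(s-1) dy = (2π)^(-s) Γ(s) L(s, Δ)`, an entire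
function with `Λ(12 - s) = Λ(s)`. -/
noncomputable def Lam (s : ℂ) : ℂ := mellin (fun y : ℝ => ((delta y : ℝ) : ℂ)) s

/-- The Ramanujan Xi function `Ξ_Δ(z) = Λ(6 + i z)`. -/
noncomputable def Xi (z : ℂ) : ℂ := Lam (6 + Complex.I * z)

/-- The statement of Q1: all zeros of `Ξ_Δ` are real. -/
def AllZerosReal : Prop := ∀ z : ℂ, Xi z = 0 → z.im = 0

/-- The `n`-th Laguerre expression of `Ξ_Δ` at the real number `x`: the coefficient of `y^(2n)` in
`|Ξ_Δ(x + i y)|²`, `y` real. -/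
noncomputable def L (n : ℕ) (x : ℝ) : ℝ :=
  iteratedDeriv (2 * n) (fun y : ℝ => ‖Xi (x + y * Complex.I)‖ ^ 2) 0 / ((2 * n).factorial : ℝ)

open Pool.Agent.Helper271.LagNF Pool.Agent.TH803.LU

/-- the function at height `x` of the library -/
noncomputable def cd (x : ℝ) : ℂ → ℂ := cen (N := 1) (k := 12) Pool.Agent.W97.TW.deltaForm x

lemma lam_eq : Pool.Agent.Y771.NF.Lam (N := 1) (k := 12) Pool.Agent.W97.TW.deltaForm = Lam :=
  funext fun s => Pool.Agent.Y771.NF.Lam_delta s

lemma cd_apply (x : ℝ) (w : ℂ) : cd x w = Lam (6 + x * Complex.I + w) := by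
  unfold cd cen
  rw [lam_eq]
  have h : (((12 : ℕ) : ℂ)) / 2 = 6 := by norm_num
  rw [h]

lemma xi_eq (x y : ℝ) : Xi (x + y * Complex.I) = cd x ((-y : ℝ) : ℂ) := by
  rw [cd_apply]
  unfold Xi
  congr 1
  have hI := Complex.I_mul_I
  push_cast
  linear_combination (y : ℂ) * hI

lemma cd_diff (x : ℝ) : Differentiable ℂ (cd x) :=
  cen_diff (by norm_num) Pool.Agent.Y771.NF.newf_delta x

lemma L_eq (n : ℕ) (x : ℝ) : L n x = LC (cd x) n := by
  rw [LC_eq (cd_diff x)]
  unfold L
  congr 1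
  have e : (fun y : ℝ => ‖Xi (x + y * Complex.I)‖ ^ 2) =
      fun y : ℝ => (fun v : ℝ => ‖cd x (v : ℂ)‖ ^ 2) (-y) := by
    funext y
    simp only
    rw [xi_eq]
  have h := iteratedDeriv_comp_neg (2 * n) (fun v : ℝ => ‖cd x (v : ℂ)‖ ^ 2) 0
  rw [neg_zero, Even.neg_one_pow (even_two_mul n), one_smul] at h
  rw [e]
  exact h

lemma real_iff : AllZerosReal ↔
    ∀ s : ℂ, Pool.Agent.Y771.NF.Lam (N := 1) (k := 12) Pool.Agent.W97.TW.deltaForm s = 0 →
      s.re = ((12 : ℕ) : ℝ) / 2 := by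
  rw [lam_eq]
  constructor
  · intro h s hs
    have h3 := h (-Complex.I * (s - 6)) (by
      unfold Xi
      have : 6 + Complex.I * (-Complex.I * (s - 6)) = s := by
        have hI := Complex.I_mul_I
        linear_combination (-(s - 6)) * hI
      rw [this]
      exact hs)
    have h4 : (-Complex.I * (s - 6)).im = -(s.re - 6) := by
      simp [Complex.mul_im]
    rw [h4] at h3
    push_cast
    linarith
  · intro h z hz
    have h3 := h (6 + Complex.I * z) hz
    have h4 : (6 + Complex.I * z).re = 6 - z.im := by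
      simp [Complex.mul_re]
      ring
    rw [h4] at h3
    push_cast at h3
    linarith

lemma strip {ϑ : ℝ} (h : ∀ z : ℂ, Xi z = 0 → |z.im| ≤ ϑ) :
    ∀ s : ℂ, Pool.Agent.Y771.NF.Lam (N := 1) (k := 12) Pool.Agent.W97.TW.deltaForm s = 0 →
      s.re ≤ ((12 : ℕ) : ℝ) / 2 + ϑ := by
  rw [lam_eq]
  intro s hs
  have h3 := h (-Complex.I * (s - 6)) (by
    unfold Xi
    have : 6 + Complex.I * (-Complex.I * (s - 6)) = s := by
      have hI := Complex.I_mul_I
      linear_combination (-(s - 6)) * hI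
    rw [this]
    exact hs)
  have h4 : (-Complex.I * (s - 6)).im = -(s.re - 6) := by
    simp [Complex.mul_im]
  rw [h4, abs_neg] at h3
  have h5 := le_abs_self (s.re - 6)
  push_cast
  linarith

/-- **The Laguerre inequalities for the Ramanujan Xi function.** -/
theorem result :
    (∀ x y : ℝ, HasSum (fun n : ℕ => L n x * y ^ (2 * n)) (‖Xi (x + y * Complex.I)‖ ^ 2)) ∧
    (∀ η : ℝ, 0 < η → ∃ C : ℝ, 0 < C ∧
      (∀ (n : ℕ) (x : ℝ), (1 / 2 + η) * Real.log (1 + |x|) + C ≤ n → 0 < L n x) ∧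
      (AllZerosReal ↔
        ∀ (n : ℕ) (x : ℝ), (n : ℝ) < (1 / 2 + η) * Real.log (1 + |x|) + C → 0 ≤ L n x)) ∧
    (∀ ϑ η : ℝ, 0 ≤ ϑ → ϑ ≤ 1 / 2 → 0 < η → (∀ z : ℂ, Xi z = 0 → |z.im| ≤ ϑ) → ∃ C : ℝ, 0 < C ∧
      ∀ (n : ℕ) (x : ℝ), (ϑ + η) * Real.log (1 + |x|) + C ≤ n → 0 < L n x) := by
  refine ⟨fun x y => ?_, fun η hη => ?_, fun ϑ η h0 h1 hη hz => ?_⟩
  · have h := hasSum_LC (cd_diff x)
      (cen_fe (f := Pool.Agent.W97.TW.deltaForm) (by norm_num) Pool.Agent.Y771.NF.newf_delta x) (-y)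
    rw [← xi_eq] at h
    have e : (fun n : ℕ => LC (cd x) n * (-y) ^ (2 * n)) = fun n : ℕ => L n x * y ^ (2 * n) := by
      funext n
      rw [L_eq, Even.neg_pow (even_two_mul n)]
    rw [e] at h
    exact h
  · obtain ⟨C, hC, h1, h2⟩ := lag (by norm_num) Pool.Agent.Y771.NF.newf_delta hη
    refine ⟨C, hC, fun n x hn => ?_, ?_⟩
    · rw [L_eq]
      exact h1 n x hn
    · rw [real_iff, h2]
      simp only [L_eq]
      rfl
  · obtain ⟨C, hC, h⟩ := zf (by norm_num) Pool.Agent.Y771.NF.newf_delta hη h0 h1 (strip hz)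
    refine ⟨C, hC, fun n x hn => ?_⟩
    rw [L_eq]
    exact h n x hn

end Pool.Agent.Results.MP_cd509c_nt.LaguerreInequalities
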