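import Pool.Agent.V11139.RL.Newf

set_option autoImplicit false

/-!
# MP_cd509c_nt: Li coefficients of the Ramanujan Xi function with a far centre

The Ramanujan Xi function is `Ξ_Δ(z) = Λ(6 + i z)`, `Λ(s) = (2π)^(-s) Γ(s) L(s, Δ)`; it is conjectured that all its
zeros are real. For a real number `A` the Li coefficients of `Λ` with centre `6 + A` are

`liCoeff A n = ∑ Re (1 - ((ρ - 6 - A) / (ρ - 6 + A)) ^ n) = ∑ Re (1 - ((i z - A) / (i z + A)) ^ n)`,

the sum over the zeros `ρ = 6 + i z` of `Λ` with multiplicity. For fixed `A` the conjecture is equivalent to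
`liCoeff A n ≥ 0` for all `n`. We let the centre go to infinity and ask for the range `1 ≤ n ≤ κ A log A`.
Unconditionally the coefficients in this range are positive, of size at least `c n A`, for every `κ < 3/2`. If the
zeros of `Ξ_Δ` satisfy `|Im z| ≤ h`, this holds for `κ < 1/2 + 1/(2h)`; conversely positivity in this range (for
large `A`) implies that the zeros satisfy `|Im z| ≤ 1/κ`. So the conjecture is equivalent to positivity in all
such ranges.

Proof: the positivity criterion of `Pool.Agent.V11271.LI` (helper271) for configurations of zeros which satisfy a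
density condition; the density condition comes from the log-free density theorem for newforms with every exponent
`c < 1` (`Pool.Agent.Y24.GL`, `Pool.Agent.Y771.NF`).
-/

open Complex

namespace Pool.Agent.Results.MP_cd509c_nt.LiHorizonRamanujan

/-- `Δ(i y) = e^(-2πy) ∏_{n ≥ 1} (1 - e^(-2πny))^24`, the modular discriminant on the imaginary axis
(the function of the frozen statement S18517). -/
noncomputable def delta (y : ℝ) : ℝ :=
  Real.exp (-2 * Real.pi * y) * ∏' n : ℕ, (1 - Real.exp (-2 * Real.pi * ((n : ℝ) + 1) * y)) ^ 24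

/-- The completed L-function `Λ(s) = ∫_0^∞ Δ(i y) y^(s-1) dy = (2π)^(-s) Γ(s) L(s, Δ)`, an entire
function with `Λ(12 - s) = Λ(s)`. -/
noncomputable def Lam (s : ℂ) : ℂ := mellin (fun y : ℝ => ((delta y : ℝ) : ℂ)) s

/-- The Ramanujan Xi function `Ξ_Δ(z) = Λ(6 + i z)`. -/
noncomputable def Xi (z : ℂ) : ℂ := Lam (6 + Complex.I * z)

/-- The Li coefficients with centre `6 + A`: the sum of `Re (1 - ((i z - A) / (i z + A)) ^ n)` over the zeros `z` of
`Ξ_Δ` with multiplicity. The sum is over all complex numbers `z`, weighted with the multiplicity of `z` as a zero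
of `Ξ_Δ`, so only the zeros contribute; it converges absolutely for `A ≥ 1`. -/
noncomputable def liCoeff (A : ℝ) (n : ℕ) : ℝ :=
  ∑' z : ℂ, (analyticOrderNatAt Xi z : ℝ) * (1 - ((Complex.I * z - A) / (Complex.I * z + A)) ^ n).re

/-- For all large `A` the first `κ A log A` coefficients are positive. -/
def PositiveUpTo (κ : ℝ) : Prop :=
  ∃ A0 : ℝ, ∀ A : ℝ, A0 ≤ A → ∀ n : ℕ, 1 ≤ n → n ≤ κ * A * Real.log A → 0 < liCoeff A n

open Pool.Agent.V11139.RL
open Pool.Agent.W97.TW (deltaForm)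
open Pool.Agent.Y771.NF (Xf newf_delta Lam_delta)

lemma exists_data : ∃ (u : ℂ) (X : ℂ → ℂ), u ≠ 0 ∧ ZD X ∧ ∀ z, Xi z = u⁻¹ * X (Complex.I * z) := by
  obtain ⟨u, hu, h⟩ := zd_newf (N := 1) (k := 12) (by norm_num) newf_delta
  refine ⟨u, _, hu, h, fun z => ?_⟩
  rw [Xf, inv_mul_cancel_left₀ hu, Lam_delta]
  have h : (((12 : ℕ) : ℂ)) / 2 = 6 := by norm_num
  rw [h]
  rfl

theorem summable {A : ℝ} (hA : 1 ≤ A) (n : ℕ) : Summable fun z : ℂ =>
    (analyticOrderNatAt Xi z : ℝ) * (1 - ((Complex.I * z - A) / (Complex.I * z + A)) ^ n).re := by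
  obtain ⟨u, X, hu, h, hX⟩ := exists_data
  exact summable_rot h (inv_ne_zero hu) hX hA n

theorem strip {z : ℂ} (hz : Xi z = 0) : |z.im| ≤ 1 / 2 := by
  obtain ⟨u, X, hu, h, hX⟩ := exists_data
  rw [hX] at hz
  have h1 := h.strip _ ((mul_eq_zero.1 hz).resolve_left (inv_ne_zero hu))
  have h2 : (Complex.I * z).re = -z.im := by simp
  rwa [h2, abs_neg] at h1

theorem sufficient {h κ : ℝ} (hh : 0 < h) (hh2 : h ≤ 1 / 2) (hκ : 0 < κ) (hκ2 : 2 * h * κ < 1 + h)
    (hz : ∀ z : ℂ, Xi z = 0 → |z.im| ≤ h) : ∃ c A0 : ℝ, 0 < c ∧ 2 ≤ A0 ∧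
    ∀ A : ℝ, A0 ≤ A → ∀ n : ℕ, 1 ≤ n → n ≤ κ * A * Real.log A → c * (n * A) ≤ liCoeff A n := by
  obtain ⟨u, X, hu, hX, hXi⟩ := exists_data
  obtain ⟨c, hc, A0, hA0, H⟩ := hX.pos hh hh2 (fun s hs => by
    have h1 := hz (-Complex.I * s) (by
      rw [hXi]
      have : Complex.I * (-Complex.I * s) = s := by
        have : Complex.I * Complex.I = -1 := Complex.I_mul_I
        linear_combination -(s : ℂ) * this
      rw [this, hs, mul_zero])
    have h2 : (-Complex.I * s).im = -s.re := by simp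
    rwa [h2, abs_neg] at h1) hκ hκ2
  refine ⟨c, A0, hc, hA0, fun A hA n hn hnA => ?_⟩
  unfold liCoeff
  rw [li_rot (inv_ne_zero hu) hX.diff hXi]
  exact H A hA n hn hnA

theorem necessary {κ : ℝ} (hκ : 0 < κ) (h : PositiveUpTo κ) {z : ℂ} (hz : Xi z = 0) : |z.im| ≤ 1 / κ := by
  obtain ⟨u, X, hu, hX, hXi⟩ := exists_data
  obtain ⟨A0, hA0⟩ := h
  rw [hXi] at hz
  have h1 := hX.neg (κ := κ) ⟨A0, fun A hA n hn hnA => by
    have h2 := hA0 A hA n hn hnA
    unfold liCoeff at h2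
    rw [li_rot (inv_ne_zero hu) hX.diff hXi] at h2
    exact h2.le⟩ ((mul_eq_zero.1 hz).resolve_left (inv_ne_zero hu))
  have h2 : (Complex.I * z).re = -z.im := by simp
  rw [h2, abs_neg] at h1
  rw [le_div_iff₀ hκ]
  linarith

/-- **Main theorem.** -/
theorem result :
    -- absolute convergence
    (∀ (A : ℝ) (n : ℕ), 1 ≤ A → Summable fun z : ℂ =>
      (analyticOrderNatAt Xi z : ℝ) * (1 - ((Complex.I * z - A) / (Complex.I * z + A)) ^ n).re) ∧
    -- all zeros in `|Im z| ≤ h`: positivity for `κ < 1/2 + 1/(2h)`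
    (∀ h κ : ℝ, 0 < h → h ≤ 1 / 2 → 0 < κ → κ < 1 / 2 + 1 / (2 * h) → (∀ z : ℂ, Xi z = 0 → |z.im| ≤ h) →
      ∃ c A0 : ℝ, 0 < c ∧ ∀ A : ℝ, A0 ≤ A → ∀ n : ℕ, 1 ≤ n → n ≤ κ * A * Real.log A →
        c * (n * A) ≤ liCoeff A n) ∧
    -- unconditional positivity for `κ < 3/2`
    (∀ κ : ℝ, 0 < κ → κ < 3 / 2 → ∃ c A0 : ℝ, 0 < c ∧ ∀ A : ℝ, A0 ≤ A → ∀ n : ℕ, 1 ≤ n →
      n ≤ κ * A * Real.log A → c * (n * A) ≤ liCoeff A n) ∧
    -- zero-free regions from positivity
    (∀ κ : ℝ, 0 < κ → PositiveUpTo κ → ∀ z : ℂ, Xi z = 0 → |z.im| ≤ 1 / κ) ∧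
    -- all zeros are real if and only if there is positivity in all ranges
    ((∀ z : ℂ, Xi z = 0 → z.im = 0) ↔ ∀ κ : ℝ, 0 < κ → PositiveUpTo κ) := by
  refine ⟨fun A n hA => summable hA n, fun h κ hh hh2 hκ hκ2 hz => ?_, fun κ hκ hκ2 => ?_,
    fun κ hκ h z hz => necessary hκ h hz, fun h κ hκ => ?_, fun h z hz => ?_⟩
  · have h1 : 2 * h * κ < 1 + h := by
      have : 2 * h * (1 / 2 + 1 / (2 * h)) = 1 + h := by field_simp; ring
      rw [← this]
      gcongr
    obtain ⟨c, A0, hc, _, H⟩ := sufficient hh hh2 hκ h1 hz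
    exact ⟨c, A0, hc, H⟩
  · obtain ⟨c, A0, hc, _, H⟩ := sufficient (h := 1 / 2) (by norm_num) le_rfl hκ (by linarith) fun z hz => strip hz
    exact ⟨c, A0, hc, H⟩
  · -- choose a small `h`
    obtain ⟨t, ht⟩ : ∃ t : ℝ, t = min (1 / 2) (1 / (2 * κ)) := ⟨_, rfl⟩
    have ht0 : 0 < t := by rw [ht]; positivity
    have ht1 : t ≤ 1 / 2 := by rw [ht]; exact min_le_left _ _
    have ht2 : t ≤ 1 / (2 * κ) := by rw [ht]; exact min_le_right _ _
    have ht3 : 2 * t * κ ≤ 1 := by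
      rw [le_div_iff₀ (by positivity)] at ht2
      linarith
    obtain ⟨c, A0, hc, hA0, H⟩ := sufficient ht0 ht1 hκ (by linarith) fun z hz => by
      rw [h z hz, abs_zero]
      exact ht0.le
    refine ⟨A0, fun A hA n hn hnA => lt_of_lt_of_le ?_ (H A hA n hn hnA)⟩
    have h1 : (0 : ℝ) < n := by exact_mod_cast hn
    have h2 : 0 < A := by linarith
    positivity
  · have h1 : |z.im| ≤ 0 := by
      apply le_of_forall_pos_le_add
      intro ε hε
      have := necessary (κ := 1 / ε) (by positivity) (h _ (by positivity)) hz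
      rwa [one_div_one_div, ← zero_add ε] at this
    exact abs_nonpos_iff.mp h1

end Pool.Agent.Results.MP_cd509c_nt.LiHorizonRamanujan
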