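import Pool.Agent.V11139.SX.Delta
import Pool.Agent.V11139.RL.Newf

set_option autoImplicit false

/-!
# MP_cd509c_nt: zeros of combinations of two shifts of the Ramanujan Xi function

`Ξ_Δ(z) = Λ(6 + i z)`, `Λ(s) = (2π)^(-s) Γ(s) L(s, Δ)`; it is conjectured that all zeros of `Ξ_Δ` are real. For
`h > 0` and real `θ` put `G(z) = e^{iθ} Ξ_Δ(z - i h) + e^{-iθ} Ξ_Δ(z + i h)`, a real entire function (on the real
line `G(x) = 2 Re (e^{iθ} Λ(6 + h + i x))`). For every `h > 0` all zeros of all these functions (`θ` real) are real if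
and only if all zeros of `Ξ_Δ` satisfy `|Im z| ≤ h`. Unconditionally, between two good heights the number of zeros of
`G` below the real line is at most the number of zeros of `Ξ_Δ` in `Im z < -h`, and all but `O(T^(1 - c h) log T)`
(every `c < 1`) of the zeros up to the height `T` are real, for `K / log T ≤ h ≤ 1/2`.

Proof: the method of helper273 (`Pool.Agent.V11273.DX`, result `ShiftedXi` for Riemann's `ξ`), here for an entire
function with the properties `Pool.Agent.V11139.SX.SX`; for `Ξ_Δ` these come from the Hadamard product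
(`Pool.Agent.Y22.RX`) and from the log-free density theorem for newforms (`Pool.Agent.Y24.GL`, `Pool.Agent.Y771.NF`).
-/

open Complex

namespace Pool.Agent.Results.MP_cd509c_nt.ShiftedXi

noncomputable section

/-- `Δ(i y) = e^(-2πy) ∏_{n ≥ 1} (1 - e^(-2πny))^24`, the modular discriminant on the imaginary axis
(the function of the frozen statement S18517). -/
def delta (y : ℝ) : ℝ :=
  Real.exp (-2 * Real.pi * y) * ∏' n : ℕ, (1 - Real.exp (-2 * Real.pi * ((n : ℝ) + 1) * y)) ^ 24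

/-- The completed L-function `Λ(s) = ∫_0^∞ Δ(i y) y^(s-1) dy = (2π)^(-s) Γ(s) L(s, Δ)`, an entire
function with `Λ(12 - s) = Λ(s)`. -/
def Lam (s : ℂ) : ℂ := mellin (fun y : ℝ => ((delta y : ℝ) : ℂ)) s

/-- The Ramanujan Xi function `Ξ_Δ(z) = Λ(6 + i z)`. -/
def Xi (z : ℂ) : ℂ := Lam (6 + Complex.I * z)

/-- The function `e^{iθ} Ξ_Δ(z - i h) + e^{-iθ} Ξ_Δ(z + i h)`. -/
def G (h θ : ℝ) (z : ℂ) : ℂ := cexp (θ * I) * Xi (z - I * h) + cexp (-(θ * I)) * Xi (z + I * h)

/-- The real number `T` is at distance more than `√((Im ρ)² - h²)` from the real part of every zero `ρ` of `Ξ_Δ` with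
`|Im ρ| ≥ h`. -/
def GoodHeight (h T : ℝ) : Prop := ∀ ρ : ℂ, Xi ρ = 0 → ρ.im ^ 2 < (T - ρ.re) ^ 2 + h ^ 2

/-- The zeros of `G h θ` below the real line with real part between `T₁` and `T₂`. -/
def zerosBelow (h θ T₁ T₂ : ℝ) : Set ℂ := {z | G h θ z = 0 ∧ z.im < 0 ∧ T₁ < z.re ∧ z.re < T₂}

/-- The zeros of `Ξ_Δ` with `Im z < -h` and real part between `T₁` and `T₂`. -/
def xiZeros (h T₁ T₂ : ℝ) : Set ℂ := {z | Xi z = 0 ∧ z.im < -h ∧ T₁ < z.re ∧ z.re < T₂}

/-- The zeros of `G h θ` that are not real, up to the height `T`. -/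
def nonReal (h θ T : ℝ) : Set ℂ := {z | G h θ z = 0 ∧ z.im ≠ 0 ∧ |z.re| ≤ T}

open Pool.Agent.V11139.SX
open Pool.Agent.V11139.RL (ZD zd_newf)
open Pool.Agent.Y771.NF (Xf newf_delta Lam_delta)
open H370 (mult)

lemma Xi_XD (z : ℂ) : Xi z = XD (I * z) := rfl

lemma exists_data : ∃ (u : ℂ) (X : ℂ → ℂ), u ≠ 0 ∧ ZD X ∧ ∀ z, XD z = u * X z := by
  obtain ⟨u, hu, h⟩ := zd_newf (N := 1) (k := 12) (by norm_num) newf_delta
  refine ⟨u⁻¹, _, inv_ne_zero hu, h, fun z => ?_⟩
  rw [Xf, inv_mul_cancel_left₀ hu, Lam_delta]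
  have h : (((12 : ℕ) : ℂ)) / 2 = 6 := by norm_num
  rw [h]
  rfl

lemma sx : SX XD := by
  obtain ⟨u, X, hu, h, hX⟩ := exists_data
  exact sx_delta hu h hX

lemma dn : DN XD := by
  obtain ⟨u, X, hu, h, hX⟩ := exists_data
  exact dn_delta hu h hX

lemma rot (z : ℂ) : I * (-I * z) = z := by
  have := Complex.I_mul_I
  linear_combination (-z) * this

lemma rot' (z : ℂ) : -I * (I * z) = z := by
  have := Complex.I_mul_I
  linear_combination (-z) * this

lemma G_FF (h θ : ℝ) (z : ℂ) : G h θ z = FF XD h θ (I * z) := by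
  unfold G FF
  rw [Xi_XD, Xi_XD]
  have e1 : I * (z - I * h) = I * z + h := by
    have := Complex.I_mul_I
    linear_combination (-(h : ℂ)) * this
  have e2 : I * (z + I * h) = I * z - h := by
    have := Complex.I_mul_I
    linear_combination (h : ℂ) * this
  rw [e1, e2]

lemma mult_rot {f : ℂ → ℂ} (z : ℂ) : mult (fun w => f (I * w)) z = mult f (I * z) := by
  have hg : AnalyticAt ℂ (fun w : ℂ => I * w) z := by fun_prop
  have hg' : deriv (fun w : ℂ => I * w) z ≠ 0 := by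
    have : HasDerivAt (fun w : ℂ => I * w) (I * 1) z := (hasDerivAt_id z).const_mul I
    rw [this.deriv, mul_one]
    exact I_ne_zero
  have h2 : analyticOrderAt (f ∘ fun w => I * w) z = analyticOrderAt f (I * z) :=
    analyticOrderAt_comp_of_deriv_ne_zero hg hg'
  unfold H370.mult analyticOrderNatAt
  rw [← h2]
  rfl

lemma G_mult (h θ : ℝ) (z : ℂ) : analyticOrderNatAt (G h θ) z = mult (FF XD h θ) (I * z) := by
  rw [← mult_rot]
  have e : G h θ = fun w => FF XD h θ (I * w) := funext (G_FF h θ)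
  rw [e]
  rfl

lemma Xi_mult (z : ℂ) : analyticOrderNatAt Xi z = mult XD (I * z) := by
  rw [← mult_rot]
  rfl

lemma re_rot (z : ℂ) : (I * z).re = -z.im := by simp

lemma im_rot (z : ℂ) : (I * z).im = z.re := by simp

lemma image_rot {P Q : ℂ → Prop} (h : ∀ z, P z ↔ Q (I * z)) :
    {z | P z} = (fun w : ℂ => -I * w) '' {w | Q w} := by
  ext z
  constructor
  · intro hz
    exact ⟨I * z, (h z).1 hz, rot' z⟩
  · rintro ⟨w, hw, rfl⟩
    refine (h _).2 ?_
    rw [rot]
    exact hw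

lemma finsum_rot {A B : Set ℂ} {f g : ℂ → ℕ} (hAB : A = (fun w : ℂ => -I * w) '' B)
    (hfg : ∀ z, f z = g (I * z)) : ∑ᶠ z ∈ A, f z = ∑ᶠ w ∈ B, g w := by
  rw [hAB, finsum_mem_image (fun a _ b _ hab => mul_left_cancel₀ (neg_ne_zero.2 I_ne_zero) hab)]
  refine finsum_mem_congr rfl fun w _ => ?_
  rw [hfg, rot]

lemma xi_zero_iff (P : ℂ → Prop) : (∀ z, Xi z = 0 → P z) ↔ ∀ b, XD b = 0 → P (-I * b) := by
  constructor
  · intro H b hb
    refine H _ ?_
    rw [Xi_XD, rot]
    exact hb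
  · intro H z hz
    rw [← rot' z]
    exact H _ hz

theorem threshold' {h : ℝ} (hh : 0 < h) :
    (∀ (θ : ℝ) (z : ℂ), G h θ z = 0 → z.im = 0) ↔ ∀ z : ℂ, Xi z = 0 → |z.im| ≤ h := by
  have := sx
  have e1 : (∀ (θ : ℝ) (z : ℂ), G h θ z = 0 → z.im = 0) ↔ ∀ (θ : ℝ) (w : ℂ), FF XD h θ w = 0 → w.re = 0 := by
    constructor
    · intro H θ w hw
      have h1 := H θ (-I * w) (by rw [G_FF, rot]; exact hw)
      have h2 : (-I * w).im = -w.re := by simp
      rw [h2] at h1
      linarith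
    · intro H θ z hz
      have h1 := H θ (I * z) (by rw [← G_FF]; exact hz)
      rw [re_rot] at h1
      linarith
  rw [e1, threshold hh]
  constructor
  · intro H z hz
    have h1 := H _ (by rw [← Xi_XD]; exact hz)
    have h2 := H (-(I * z)) (by rw [SX.even (XX := XD), ← Xi_XD]; exact hz)
    rw [Complex.neg_re, re_rot] at h2
    rw [re_rot] at h1
    rw [abs_le]
    constructor <;> linarith
  · intro H b hb
    have h1 := H (-I * b) (by rw [Xi_XD, rot]; exact hb)
    have h2 : (-I * b).im = -b.re := by simp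
    rw [h2, abs_neg] at h1
    exact (le_abs_self _).trans h1

/-- **Zeros of combinations of two shifts of the Ramanujan Xi function.** -/
theorem result :
    -- the exact threshold
    (∀ h : ℝ, 0 < h → ((∀ (θ : ℝ) (z : ℂ), G h θ z = 0 → z.im = 0) ↔ ∀ z : ℂ, Xi z = 0 → |z.im| ≤ h)) ∧
    ((∀ z : ℂ, Xi z = 0 → z.im = 0) ↔ ∀ (h θ : ℝ) (z : ℂ), 0 < h → G h θ z = 0 → z.im = 0) ∧
    -- local bound for the number of non-real zeros
    (∀ h θ T₁ T₂ : ℝ, 0 < h → T₁ < T₂ → GoodHeight h T₁ → GoodHeight h T₂ →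
      (zerosBelow h θ T₁ T₂).Finite ∧
      ∑ᶠ z ∈ zerosBelow h θ T₁ T₂, analyticOrderNatAt (G h θ) z ≤
        ∑ᶠ z ∈ xiZeros h T₁ T₂, analyticOrderNatAt Xi z) ∧
    -- the density of the non-real zeros
    (∀ c : ℝ, c < 1 → ∃ C K : ℝ, 0 < C ∧ 0 < K ∧ ∀ T h θ : ℝ, 2 ≤ T → K / Real.log T ≤ h → h ≤ 1 / 2 →
      (nonReal h θ T).Finite ∧
      ((∑ᶠ z ∈ nonReal h θ T, analyticOrderNatAt (G h θ) z : ℕ) : ℝ) ≤ C * T ^ (1 - c * h) * Real.log T) := by
  have := sx
  refine ⟨fun h hh => threshold' hh, ⟨fun H h θ z hh hz => ?_, fun H z hz => ?_⟩, ?_, ?_⟩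
  · refine (threshold' hh).2 (fun w hw => ?_) θ z hz
    rw [H w hw, abs_zero]
    exact hh.le
  · have h1 : |z.im| ≤ 0 := by
      apply le_of_forall_pos_le_add
      intro ε hε
      rw [zero_add]
      exact (threshold' hε).1 (fun θ w hw => H ε θ w hε hw) z hz
    exact abs_nonpos_iff.mp h1
  · intro h θ T₁ T₂ hh hT h1 h2
    have g : ∀ T, GoodHeight h T → GH XD h T := by
      intro T hT b hb
      have := hT (-I * b) (by rw [Xi_XD, rot]; exact hb)
      have e1 : (-I * b).re = b.im := by simp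
      have e2 : (-I * b).im = -b.re := by simp
      rw [e1, e2, neg_sq] at this
      exact this
    obtain ⟨f1, f2⟩ := count_le (XX := XD) (θ := θ) hh hT (g _ h1) (g _ h2)
    have hset : zerosBelow h θ T₁ T₂ = (fun w : ℂ => -I * w) '' RZ XD h θ T₁ T₂ := by
      refine image_rot fun z => ?_
      rw [G_FF, re_rot, im_rot, neg_pos]
    have hset2 : xiZeros h T₁ T₂ = (fun w : ℂ => -I * w) '' XZ XD h T₁ T₂ := by
      refine image_rot fun z => ?_
      rw [Xi_XD, re_rot, im_rot, lt_neg]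
    refine ⟨by rw [hset]; exact f1.image _, ?_⟩
    rw [finsum_rot hset (G_mult h θ), finsum_rot hset2 Xi_mult]
    exact f2
  · intro c hc
    obtain ⟨C, K, hC, hK, H⟩ := dens dn hc
    refine ⟨C, K, hC, hK, fun T h θ hT hKh hh2 => ?_⟩
    obtain ⟨f1, f2⟩ := H T h θ hT hKh hh2
    have hset : nonReal h θ T = (fun w : ℂ => -I * w) '' OZ XD h θ T := by
      refine image_rot fun z => ?_
      rw [G_FF, re_rot, im_rot, neg_ne_zero]
    refine ⟨by rw [hset]; exact f1.image _, ?_⟩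
    rw [finsum_rot hset (G_mult h θ)]
    exact f2

end

end Pool.Agent.Results.MP_cd509c_nt.ShiftedXi
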